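import Pool.Agent.Helper98.BL2.DomM

/-!
Project BL2 (MP_b8862a_ag): a simple irreducible Lie algebra of matrices with a diagonalisable element with an eigenvalue
of large multiplicity is of full type.
-/

set_option autoImplicit false
set_option linter.unusedSectionVars false

open Matrix Module GH

namespace MH

/-- **Simple Lie algebras with an eigenvalue of large multiplicity.** -/
theorem tyN_domG_smp {r : ℕ} (hr : 2 ≤ r) {L0 : Submodule ℂ (Matrix (Fin r) (Fin r) ℂ)}
    (hbr : ∀ X ∈ L0, ∀ Y ∈ L0, X * Y - Y * X ∈ L0)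
    (hirr : ∀ W : Submodule ℂ (Fin r → ℂ), (∀ X ∈ L0, ∀ w ∈ W, X *ᵥ w ∈ W) → W = ⊥ ∨ W = ⊤)
    (htr : ∀ X ∈ L0, X.trace = 0) (hs : Smp L0) {h : Matrix (Fin r) (Fin r) ℂ} (hh : h ∈ L0) (h0 : h ≠ 0)
    {E : ℝ → Matrix (Fin r) (Fin r) ℂ} {Λ : Finset ℝ} (hE : SD h E Λ) {μ : ℝ}
    (hμ : r ≤ (E μ).rank + 1 ∨ (r - (E μ).rank + 1) ^ 2 ≤ r) :
    GH.TyN (L0 ⊔ Submodule.span ℂ {1}) := by
  classical
  have hne : Nonempty (Fin r) := ⟨⟨0, by omega⟩⟩
  have hr0 : (r : ℂ) ≠ 0 := by
    have : r ≠ 0 := by omega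
    exact_mod_cast this
  have hone : (1 : Matrix (Fin r) (Fin r) ℂ) ∈ L0 ⊔ Submodule.span ℂ {1} :=
    (le_sup_right : _ ≤ L0 ⊔ Submodule.span ℂ {1}) (Submodule.mem_span_singleton_self 1)
  have hmem : ∀ X, X ∈ L0 ⊔ Submodule.span ℂ {1} ↔ ∃ X0 ∈ L0, ∃ c : ℂ, X = X0 + c • (1 : Matrix (Fin r) (Fin r) ℂ) := by
    intro X
    rw [Submodule.mem_sup]
    constructor
    · rintro ⟨X0, hX0, Y, hY, rfl⟩
      obtain ⟨c, rfl⟩ := Submodule.mem_span_singleton.1 hY
      exact ⟨X0, hX0, c, rfl⟩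
    · rintro ⟨X0, hX0, c, rfl⟩
      exact ⟨X0, hX0, _, Submodule.mem_span_singleton.2 ⟨c, rfl⟩, rfl⟩
  set L := L0 ⊔ Submodule.span ℂ {(1 : Matrix (Fin r) (Fin r) ℂ)} with hL
  have hbr' : ∀ X ∈ L, ∀ Y ∈ L, X * Y - Y * X ∈ L := by
    intro X hX Y hY
    obtain ⟨X0, hX0, c, rfl⟩ := (hmem X).1 hX
    obtain ⟨Y0, hY0, d, rfl⟩ := (hmem Y).1 hY
    have e : (X0 + c • (1 : Matrix (Fin r) (Fin r) ℂ)) * (Y0 + d • (1 : Matrix (Fin r) (Fin r) ℂ)) -
        (Y0 + d • (1 : Matrix (Fin r) (Fin r) ℂ)) * (X0 + c • (1 : Matrix (Fin r) (Fin r) ℂ)) =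
        X0 * Y0 - Y0 * X0 := by
      simp only [mul_add, add_mul, mul_smul_comm, smul_mul_assoc, mul_one, one_mul]
      module
    rw [e]
    exact (le_sup_left : L0 ≤ _) (hbr X0 hX0 Y0 hY0)
  have hirr' : ∀ W : Submodule ℂ (Fin r → ℂ), (∀ X ∈ L, ∀ w ∈ W, X *ᵥ w ∈ W) → W = ⊥ ∨ W = ⊤ :=
    fun W hW => hirr W fun X hX w hw => hW X ((le_sup_left : L0 ≤ _) hX) w hw
  have hschur : ∀ T : Matrix (Fin r) (Fin r) ℂ, (∀ x ∈ L, T * x = x * T) →
      ∃ c : ℂ, T = c • (1 : Matrix (Fin r) (Fin r) ℂ) := by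
    intro T hT
    obtain ⟨c, hc⟩ := Module.End.exists_eigenvalue (Matrix.toLin' T)
    refine ⟨c, ?_⟩
    rcases hirr' (Module.End.eigenspace (Matrix.toLin' T) c) (by
      intro X hX w hw
      rw [Module.End.mem_eigenspace_iff, Matrix.toLin'_apply] at hw ⊢
      rw [Matrix.mulVec_mulVec, hT X hX, ← Matrix.mulVec_mulVec, hw, Matrix.mulVec_smul]) with h5 | h5
    · exact absurd h5 hc
    · apply Dat.mat_ext
      intro u
      have hu : u ∈ Module.End.eigenspace (Matrix.toLin' T) c := by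
        rw [h5]
        exact Submodule.mem_top
      rw [Module.End.mem_eigenspace_iff, Matrix.toLin'_apply] at hu
      rw [hu, Matrix.smul_mulVec, Matrix.one_mulVec]
  -- the shifted element
  have hS := sd_shift98 hE μ
  set E' : ℝ → Matrix (Fin r) (Fin r) ℂ := fun ν => E (ν + μ) with hE'
  have hE0 : E' 0 = E μ := by rw [hE']; simp
  have hhL : h - (μ : ℂ) • (1 : Matrix (Fin r) (Fin r) ℂ) ∈ L :=
    L.sub_mem ((le_sup_left : L0 ≤ _) hh) (L.smul_mem _ hone)
  obtain ⟨B, Bi, h1, h2, h3, h4⟩ := exists_coord98 hone hbr' hirr' hhL hS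
  have hG : Gr (cjS B Bi L) (cj B Bi (h - (μ : ℂ) • (1 : Matrix (Fin r) (Fin r) ℂ))) (fun ν => cj B Bi (E' ν))
      (Λ.image fun ν => ν - μ) :=
    ⟨spec_of98 (sd_cj98 hS h1 h2) h3, cjS_br h1 hbr', h4, cjS_mem h2 hhL⟩
  have hEE : E μ * E μ = E μ := by rw [hE.mul, if_pos rfl]
  have hE1 : cj B Bi (E' 0) ≠ 1 := by
    intro h5
    have h6 := congrArg (cj Bi B) h5
    rw [cj_cj h2, cj_one h2, hE0] at h6
    have h7 := hE.l_mul μ
    rw [h6, mul_one] at h7
    have h8 := htr h hh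
    rw [h7, Matrix.trace_smul, Matrix.trace_one, Fintype.card_fin, smul_eq_mul] at h8
    apply h0
    rw [h7, (mul_eq_zero.1 h8).resolve_right hr0, zero_smul]
  have hrk : (1 - cj B Bi (E' 0)).rank + (E μ).rank = r := by
    rw [hE0]
    have h5 := rank_compl (F := cj B Bi (E μ)) (by rw [cj_mul h2, hEE])
    rw [rank_cj h1 h2 hEE, Fintype.card_fin] at h5
    exact h5
  have irr2 := cjS_irr h1 h2 hschur
  rcases Nat.lt_or_ge r 9 with hr9 | hr9
  · -- small rank
    have hsl : ∀ x : Matrix (Fin r) (Fin r) ℂ, x.trace = 0 → x ∈ L := by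
      intro x hx
      have hp1 : (1 - cj B Bi (E' 0)).rank ≤ 1 := by
        rcases hμ with hp | hp
        · omega
        · by_contra hcon
          have h5 : 3 ≤ r - (E μ).rank + 1 := by omega
          have h6 : 3 ^ 2 ≤ (r - (E μ).rank + 1) ^ 2 := Nat.pow_le_pow_left h5 2
          omega
      have h5 := hG.one_sl irr2 hE1 hp1 (x := cj B Bi x) (by rw [trace_cj98 h2]; exact hx)
      rwa [mem_cjS, cj_cj h2] at h5
    exact ⟨Or.inl hsl, Or.inl hsl⟩
  · have h5 := gst98 hG (cjS_one h2 hone) hE1 (by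
        rw [Fintype.card_fin]
        rcases hμ with hp | hp
        · left
          omega
        · right
          refine le_trans (Nat.pow_le_pow_left ?_ 2) hp
          omega) (by rw [Fintype.card_fin]; omega) irr2 (fun T hT1 hT2 => by
        refine hG.nr98 irr2 ?_ (T := T) ⟨hT1, hT2⟩
        intro K hKL hK hhK hcK
        have h1K : (1 : Matrix (Fin r) (Fin r) ℂ) ∈ K := by
          have := hcK 1 (by rw [one_smul]; exact cjS_one h2 hone)
          rwa [one_smul] at this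
        let K0 : Submodule ℂ (Matrix (Fin r) (Fin r) ℂ) :=
          { carrier := {x | x ∈ L0 ∧ cj B Bi x ∈ K}
            add_mem' := by
              rintro x y ⟨hx, hx'⟩ ⟨hy, hy'⟩
              refine ⟨L0.add_mem hx hy, ?_⟩
              rw [cj_add]
              exact K.add_mem hx' hy'
            zero_mem' := by
              refine ⟨L0.zero_mem, ?_⟩
              rw [cj_zero]
              exact K.zero_mem
            smul_mem' := by
              rintro c x ⟨hx, hx'⟩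
              refine ⟨L0.smul_mem c hx, ?_⟩
              rw [cj_smul]
              exact K.smul_mem c hx' }
        have hK0 : K0 = L0 := by
          rcases hs K0 (fun x hx => hx.1) (by
            rintro Y hY x ⟨hx, hx'⟩
            refine ⟨hbr Y hY x hx, ?_⟩
            rw [cj_sub, ← cj_mul h2, ← cj_mul h2]
            exact hK _ (cjS_mem h2 ((le_sup_left : L0 ≤ _) hY)) _ hx') with h6 | h6
          · exfalso
            have h7 : h ∈ K0 := by
              refine ⟨hh, ?_⟩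
              have e1 : cj B Bi h = cj B Bi (h - (μ : ℂ) • (1 : Matrix (Fin r) (Fin r) ℂ)) +
                  (μ : ℂ) • (1 : Matrix (Fin r) (Fin r) ℂ) := by
                rw [cj_sub, cj_smul, cj_one h1, sub_add_cancel]
              rw [e1]
              exact K.add_mem hhK (K.smul_mem _ h1K)
            rw [h6, Submodule.mem_bot] at h7
            exact h0 h7
          · exact h6
        intro x hx
        obtain ⟨X0, hX0, c, hc⟩ := (hmem _).1 (mem_cjS.1 hx)
        have h6 : X0 ∈ K0 := by rw [hK0]; exact hX0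
        have e1 : x = cj B Bi X0 + c • (1 : Matrix (Fin r) (Fin r) ℂ) := by
          have e2 := congrArg (cj B Bi) hc
          rwa [cj_cj h1, cj_add, cj_smul, cj_one h1] at e2
        rw [e1]
        exact K.add_mem h6.2 (K.smul_mem _ h1K))
    exact ⟨Ty.of_cjS h1 h2 h5.ty, Or.inr (by rw [Fintype.card_fin]; exact hr9)⟩

end MH
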