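import Pool.Agent.Helper98.GP.TyN
import Pool.Agent.Helper98.PF.Core

/-!
Project BL2 (MP_b8862a_ag): for a simple Lie algebra of matrices, the operators that commute with a diagonalisable
element and with its root vectors are scalars; the conjugates of the element.
-/

set_option autoImplicit false
set_option linter.unusedSectionVars false

open Matrix Module GH

namespace MH

variable {n : Type*} [Fintype n] [DecidableEq n] {L : Submodule ℂ (Matrix n n ℂ)} {h : Matrix n n ℂ}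
  {E : ℝ → Matrix n n ℂ} {Λ : Finset ℝ}

/-- commuting with `h` and with its root vectors -/
def CN98 (L : Submodule ℂ (Matrix n n ℂ)) (h T : Matrix n n ℂ) : Prop :=
  T * h = h * T ∧ ∀ ν : ℝ, ν ≠ 0 → ∀ x ∈ Ld L h ν, T * x = x * T

theorem _root_.GH.Gr.norm98 (G : Gr L h E Λ) {T l : Matrix n n ℂ} (hT : CN98 L h T) (hl : l ∈ L) :
    CN98 L h (l * T - T * l) := by
  obtain ⟨h1, h2⟩ := hT
  set l0 := cmp E Λ 0 l with hl0
  have hm := G.cmp_mem_Ld hl 0
  have e0 : l * T - T * l = l0 * T - T * l0 := by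
    conv_lhs => rw [G.spec.sum_cmp l, Finset.sum_mul, Finset.mul_sum, ← Finset.sum_sub_distrib]
    by_cases h0 : (0 : ℝ) ∈ (Λ ×ˢ Λ).image (fun p => p.1 - p.2)
    · rw [Finset.sum_eq_single_of_mem _ h0]
      intro ν _ hν
      rw [h2 ν hν _ (G.cmp_mem_Ld hl ν), sub_self]
    · have h3 : ∀ μ ∈ Λ, ∀ μ' ∈ Λ, False := by
        intro μ hμ μ' _
        exact h0 (Finset.mem_image.2 ⟨(μ, μ), Finset.mem_product.2 ⟨hμ, hμ⟩, sub_self μ⟩)
      have h4 : Λ = ∅ := by
        rw [Finset.eq_empty_iff_forall_notMem]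
        intro μ hμ
        exact h3 μ hμ μ hμ
      rw [hl0, cmp, h4]
      simp
  have hl0h : h * l0 = l0 * h := by
    have := hm.2
    rw [Complex.ofReal_zero, zero_smul] at this
    exact sub_eq_zero.1 this
  rw [e0]
  refine ⟨?_, ?_⟩
  · calc (l0 * T - T * l0) * h = l0 * (T * h) - T * (l0 * h) := by noncomm_ring
      _ = l0 * (h * T) - T * (h * l0) := by rw [h1, hl0h]
      _ = (l0 * h) * T - (T * h) * l0 := by noncomm_ring
      _ = (h * l0) * T - (h * T) * l0 := by rw [h1, hl0h]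
      _ = h * (l0 * T - T * l0) := by noncomm_ring
  · intro ν hν x hx
    have h5 : l0 * x - x * l0 ∈ Ld L h ν := by
      refine ⟨G.br _ hm.1 _ hx.1, ?_⟩
      calc h * (l0 * x - x * l0) - (l0 * x - x * l0) * h
          = (h * l0) * x - (h * x) * l0 - (l0 * (x * h) - x * (l0 * h)) := by noncomm_ring
        _ = (l0 * h) * x - (h * x) * l0 - (l0 * (x * h) - x * (h * l0)) := by rw [hl0h]
        _ = l0 * (h * x - x * h) - (h * x - x * h) * l0 := by noncomm_ring
        _ = (ν : ℂ) • (l0 * x - x * l0) := by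
            rw [hx.2, mul_smul_comm, smul_mul_assoc, smul_sub]
    have h6 := h2 ν hν _ h5
    have h7 := h2 ν hν x hx
    calc (l0 * T - T * l0) * x = l0 * (T * x) - T * (l0 * x - x * l0) - (T * x) * l0 := by noncomm_ring
      _ = l0 * (x * T) - (l0 * x - x * l0) * T - (x * T) * l0 := by rw [h6, h7]
      _ = x * (l0 * T - T * l0) := by noncomm_ring

/-- **Operators commuting with `h` and its root vectors are scalars.** -/
theorem _root_.GH.Gr.nr98 (G : Gr L h E Λ)
    (irr : ∀ T : Matrix n n ℂ, (∀ x ∈ L, T * x = x * T) → ∃ c : ℂ, T = c • (1 : Matrix n n ℂ))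
    (hI : ∀ K ≤ L, (∀ X ∈ L, ∀ Y ∈ K, X * Y - Y * X ∈ K) → h ∈ K →
      (∀ c : ℂ, c • (1 : Matrix n n ℂ) ∈ L → c • (1 : Matrix n n ℂ) ∈ K) → L ≤ K)
    {T : Matrix n n ℂ} (hT : CN98 L h T) : ∃ c : ℂ, T = c • (1 : Matrix n n ℂ) := by
  let K : Submodule ℂ (Matrix n n ℂ) :=
    { carrier := {x | x ∈ L ∧ ∀ T, CN98 L h T → T * x = x * T}
      add_mem' := by
        rintro a b ⟨ha, ha'⟩ ⟨hb, hb'⟩
        refine ⟨L.add_mem ha hb, fun T hT => ?_⟩
        rw [mul_add, add_mul, ha' T hT, hb' T hT]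
      zero_mem' := ⟨L.zero_mem, fun T _ => by simp⟩
      smul_mem' := by
        rintro c a ⟨ha, ha'⟩
        refine ⟨L.smul_mem c ha, fun T hT => ?_⟩
        rw [mul_smul_comm, smul_mul_assoc, ha' T hT] }
  have hK := hI K (fun x hx => hx.1) (by
    rintro X hX Y ⟨hY, hY'⟩
    refine ⟨G.br X hX Y hY, fun T hT => ?_⟩
    have h1 := hY' _ (G.norm98 hT hX)
    have h2 := hY' T hT
    have h3 : T * (X * Y - Y * X) - (X * Y - Y * X) * T =
        (T * Y - Y * T) * (-X) + X * (T * Y - Y * T) - ((X * T - T * X) * Y - Y * (X * T - T * X)) := by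
      noncomm_ring
    rw [h1, h2, sub_self, sub_self, zero_mul, mul_zero, add_zero, sub_zero] at h3
    exact sub_eq_zero.1 h3)
    ⟨G.mem, fun T hT => hT.1⟩ (fun c hc => ⟨hc, fun T _ => by simp⟩)
  exact irr T fun x hx => (hK hx).2 T hT

theorem _root_.GH.Gr.nil98 (G : Gr L h E Λ) {ν : ℝ} (hν : ν ≠ 0) {x : Matrix n n ℂ} (hx : x ∈ Ld L h ν) :
    IsNilpotent x := by
  have hpow : ∀ k : ℕ, h * x ^ k - x ^ k * h = (((k : ℝ) * ν : ℝ) : ℂ) • x ^ k := by
    intro k
    induction k with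
    | zero => simp
    | succ k ih =>
      have h1 : h * x ^ (k + 1) - x ^ (k + 1) * h = (h * x ^ k - x ^ k * h) * x + x ^ k * (h * x - x * h) := by
        rw [pow_succ]
        noncomm_ring
      rw [h1, ih, hx.2, smul_mul_assoc, mul_smul_comm, ← pow_succ, ← add_smul]
      congr 1
      push_cast
      ring
  obtain ⟨a, ⟨k, rfl⟩, hk⟩ := (Set.infinite_range_of_injective (f := fun k : ℕ => (k : ℝ) * ν) (by
    intro a b hab
    have := mul_right_cancel₀ hν hab
    exact_mod_cast this)).exists_notMem_finset ((Λ ×ˢ Λ).image (fun p => p.1 - p.2))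
  refine ⟨k, ?_⟩
  apply G.spec.ext
  intro μ μ'
  have h1 := G.spec.sandwich (x ^ k) μ μ'
  rw [hpow, mul_smul_comm, smul_mul_assoc] at h1
  rw [mul_zero, zero_mul]
  by_cases hμ : μ ∈ Λ
  · by_cases hμ' : μ' ∈ Λ
    · have h2 : (((k : ℝ) * ν : ℝ) : ℂ) - ((μ : ℂ) - μ') ≠ 0 := by
        intro h3
        apply hk
        have h4 : (k : ℝ) * ν = μ - μ' := by
          have := sub_eq_zero.1 h3
          exact_mod_cast this
        exact Finset.mem_image.2 ⟨(μ, μ'), Finset.mem_product.2 ⟨hμ, hμ'⟩, h4.symm⟩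
      have h3 : ((((k : ℝ) * ν : ℝ) : ℂ) - ((μ : ℂ) - μ')) • (E μ * x ^ k * E μ') = 0 := by
        rw [sub_smul, h1, sub_self]
      exact (smul_eq_zero.1 h3).resolve_left h2
    · rw [G.spec.supp μ' hμ', mul_zero]
  · rw [G.spec.supp μ hμ, zero_mul, zero_mul]

/-- the exponential of a root vector -/
theorem exp_root98 {h y : Matrix n n ℂ} {c : ℂ} (hy : h * y - y * h = c • y) (hn : IsNilpotent y) :
    h * IsNilpotent.exp y = IsNilpotent.exp y * h + c • (y * IsNilpotent.exp y) := by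
  obtain ⟨k, hk⟩ := hn
  have hk1 : y ^ (k + 1) = 0 := by rw [pow_succ, hk, zero_mul]
  have hpow : ∀ i : ℕ, h * y ^ i = y ^ i * h + (c * i) • y ^ i := by
    intro i
    induction i with
    | zero => simp
    | succ i ih =>
      have h1 : h * y = y * h + c • y := by rw [← hy]; abel
      calc h * y ^ (i + 1) = (h * y ^ i) * y := by rw [pow_succ, mul_assoc]
        _ = y ^ i * (h * y) + (c * i) • (y ^ i * y) := by
            rw [ih, add_mul, smul_mul_assoc, mul_assoc]
        _ = y ^ (i + 1) * h + (c * ((i + 1 : ℕ) : ℂ)) • y ^ (i + 1) := by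
            rw [h1, mul_add, mul_smul_comm, ← mul_assoc, ← pow_succ, add_assoc, ← add_smul]
            congr 2
            push_cast
            ring
  have hq : ∀ (q : ℚ) (A : Matrix n n ℂ), q • A = (q : ℂ) • A := fun q A => by
    ext i j
    simp [Matrix.smul_apply, Rat.smul_def]
  have e1 : IsNilpotent.exp y = ∑ i ∈ Finset.range (k + 1), ((i.factorial : ℚ)⁻¹) • (y ^ i) :=
    IsNilpotent.exp_eq_sum hk1
  have e2 : IsNilpotent.exp y = ∑ i ∈ Finset.range k, ((i.factorial : ℚ)⁻¹) • (y ^ i) :=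
    IsNilpotent.exp_eq_sum hk
  have e3 : y * IsNilpotent.exp y = ∑ i ∈ Finset.range (k + 1), ((i.factorial : ℚ)⁻¹ * i) • (y ^ i) := by
    rw [e2, Finset.mul_sum, Finset.sum_range_succ']
    simp only [Nat.cast_zero, mul_zero, zero_smul, add_zero]
    refine Finset.sum_congr rfl fun i _ => ?_
    rw [mul_smul_comm, ← pow_succ']
    congr 1
    have h1 : ((i : ℚ) + 1) ≠ 0 := by positivity
    have h2 : ((i.factorial : ℕ) : ℚ) ≠ 0 := by positivity
    rw [Nat.factorial_succ]
    push_cast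
    field_simp
  rw [e3, e1, Finset.mul_sum, Finset.sum_mul, Finset.smul_sum, ← Finset.sum_add_distrib]
  refine Finset.sum_congr rfl fun i _ => ?_
  rw [mul_smul_comm, smul_mul_assoc, hpow, smul_add]
  congr 1
  rw [hq, hq, smul_smul, smul_smul]
  congr 1
  push_cast
  ring

/-- adding a root vector to `h` gives a conjugate of `h` -/
theorem _root_.GH.Gr.conj98 (G : Gr L h E Λ) {ν : ℝ} (hν : ν ≠ 0) {x : Matrix n n ℂ} (hx : x ∈ Ld L h ν) :
    ∃ F : ℝ → Matrix n n ℂ, SD (h + x) F Λ ∧ ∀ μ, (F μ).rank = (E μ).rank := by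
  have hν' : (ν : ℂ) ≠ 0 := by exact_mod_cast hν
  have hn : IsNilpotent (-(ν : ℂ)⁻¹ • x) := (G.nil98 hν hx).smul _
  set y := -(ν : ℂ)⁻¹ • x with hy
  have hyν : h * y - y * h = (ν : ℂ) • y := by
    rw [hy, mul_smul_comm, smul_mul_assoc, ← smul_sub, hx.2, smul_comm]
  have h1 := exp_root98 hyν hn
  have h2 := IsNilpotent.exp_mul_exp_neg_self hn
  have h3 := IsNilpotent.exp_neg_mul_exp_self hn
  set g := IsNilpotent.exp y
  set gi := IsNilpotent.exp (-y)
  have h4 : (ν : ℂ) • y = -x := by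
    rw [hy, smul_smul, mul_neg, mul_inv_cancel₀ hν', neg_smul, one_smul]
  have h5 : h + x = cj g gi h := by
    have e1 : (h + x) * g = g * h := by
      rw [add_mul, h1, ← smul_mul_assoc, h4]
      noncomm_ring
    calc h + x = (h + x) * g * gi := by rw [mul_assoc, h2, mul_one]
      _ = cj g gi h := by rw [e1]; rfl
  have S : SD h E Λ := ⟨G.spec.mul, G.spec.sum, G.spec.eq⟩
  refine ⟨fun μ => cj g gi (E μ), ?_, fun μ => ?_⟩
  · rw [h5]
    exact sd_cj98 S h2 h3
  · exact rank_cj h2 h3 (by rw [G.spec.mul, if_pos rfl])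

end MH

namespace GH

open MH

variable {n : Type*} [Fintype n] [DecidableEq n] {L : Submodule ℂ (Matrix n n ℂ)} {h : Matrix n n ℂ}
  {E : ℝ → Matrix n n ℂ} {Λ : Finset ℝ}

/-- `gst` with the commutant of `h` and its root vectors as hypothesis -/
theorem gst98 (G : Gr L h E Λ) (h1 : (1 : Matrix n n ℂ) ∈ L) (hE : E 0 ≠ 1)
    (hr : (1 - E 0).rank ≤ 1 ∨ ((1 - E 0).rank + 1) ^ 2 ≤ Fintype.card n) (h3 : 3 ≤ Fintype.card n)
    (irr : ∀ T : Matrix n n ℂ, (∀ x ∈ L, T * x = x * T) → ∃ c : ℂ, T = c • (1 : Matrix n n ℂ))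
    (nr : ∀ T : Matrix n n ℂ, T * h = h * T → (∀ ν : ℝ, ν ≠ 0 → ∀ x ∈ Ld L h ν, T * x = x * T) →
      ∃ c : ℂ, T = c • (1 : Matrix n n ℂ)) :
    Good L h E Λ := by
  have hcard := card_rank G
  set r := (1 - E 0).rank with hrd
  set b := (E 0).rank with hbd
  have hr1 : 1 ≤ r := by
    by_contra h0
    have h5 : (1 - E 0).rank = 0 := by omega
    apply hE
    exact (sub_eq_zero.1 (rank_eq_zero98 h5)).symm
  have hd0 := G.dim_zero
  rw [← hrd] at hd0
  -- the linear case
  have slcase : (∀ x : Matrix n n ℂ, x.trace = 0 → x ∈ L) → r ^ 2 + 3 ≤ b ^ 2 → Good L h E Λ := by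
    intro hsl hb
    have h5 := nu_all21 G (all_of_sl21 (by omega) h1 hsl)
    rw [← hbd] at h5
    exact ⟨G, h1, Or.inl hsl, nr, hE, Or.inl hsl, by omega⟩
  rcases Nat.lt_or_ge r 2 with h5 | h5
  · refine slcase (fun x hx => G.one_sl irr hE (by omega) hx) ?_
    have h6 : r = 1 := by omega
    have h7 : 2 ≤ b := by omega
    rw [h6]
    nlinarith
  · have hr2 : (r + 1) ^ 2 ≤ Fintype.card n := by
      rcases hr with h6 | h6
      · omega
      · exact h6
    have hb : r ^ 2 + r + 1 ≤ b := by nlinarith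
    have h4 : 4 ≤ finrank ℂ (KK L E) := G.dims irr hE hr2
    have F := fam_one21 h1 irr
    have h44 := four_one21 (E := E) h4
    have U := G.unit F h44
    have S0 := G.span0 F h44 U
    have hk : ∀ T, Ck L E T → ∃ c : ℂ, T = c • E 0 := by
      intro T hT
      obtain ⟨T', h6, _, h7, h8⟩ := G.mach F h44 hT
      obtain ⟨c, hc⟩ := nr T' h7 h8
      refine ⟨c, ?_⟩
      rw [← h6, hc, Matrix.smul_mul, Matrix.one_mul]
    rcases G.dich U hk (by omega) with ha | ⟨Q, hQ0, hQ1, hQ2, hQ3⟩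
    · refine slcase (fun x hx => G.sl S0 hE ha hx) ?_
      nlinarith
    · obtain ⟨B, hB1, hB2, hB3, hB4⟩ := G.form h1 irr h4 hQ1 hQ2 hQ3
      have hty : Ty L := by
        refine G.skew S0 U hE nr hk h4 (B := B) (by rw [hB1]; exact hQ0) (by rw [hB1, hB2]) hB3 hB4 ?_
        intro z hz
        have e1 : zᵀ * B = zᵀ * Q := by
          conv_lhs => rw [← G.KK_left hz, Matrix.transpose_mul, Matrix.mul_assoc, hB2]
        have e2 : B * z = Q * z := by
          conv_lhs => rw [← G.KK_left hz, ← Matrix.mul_assoc, hB1]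
        rw [e1, e2, hQ3 z hz]
      rcases hty with hsl | ⟨Q', hs', hu, hsk, hsc⟩
      · refine slcase hsl ?_
        nlinarith
      · obtain ⟨c, hc⟩ := hsc h G.mem
        have hEQ := formE21 G hu hc (by rw [← hrd, ← hbd]; nlinarith)
        have h6 : 2 * (b - 2) ≤ finrank ℂ (KK L E) := by
          rcases hs' with h7 | h7
          · exact nu_skew21 G (ε := 1) (by norm_num) (by rw [one_smul]; exact h7) hu hsk hEQ (by rw [← hbd]; nlinarith)
          · exact nu_skew21 G (ε := -1) (by norm_num) (by rw [neg_one_smul]; exact h7) hu hsk hEQ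
              (by rw [← hbd]; nlinarith)
        have h7 : r ^ 2 + 3 ≤ 2 * (b - 2) := by
          have h8 : 2 ≤ b := by nlinarith
          obtain ⟨b', hb'⟩ := Nat.exists_eq_add_of_le h8
          rw [hb'] at hb ⊢
          have : 2 + b' - 2 = b' := by omega
          rw [this]
          nlinarith
        exact ⟨G, h1, Or.inr ⟨Q', hs', hu, hsk, hsc⟩, nr, hE, Or.inr (by nlinarith), by omega⟩

end GH
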