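import Pool.Agent.Helper2.EL.Defs
import Pool.Agent.Helper21.MH.Hodge4
import Pool.Agent.Helper21.MH.Main3
import Pool.Agent.Helper57.CF.Mat
import Pool.Agent.Helper98.BL2.Nr

/-!
Project BL2 (MP_b8862a_ag): a simple irreducible complex Lie algebra of matrices that are skew for a symmetric form and
that contains a diagonalisable element with a dominating middle eigenvalue is the full orthogonal Lie algebra (no
condition on common divisors). The first part repeats the private lemmas of Helper21/MH/Full4.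
-/

set_option linter.unusedSectionVars false

open Matrix

namespace MH

variable {n : Type*} [Fintype n] [DecidableEq n]

/-- the adjoint for the form with Gram matrix `G` -/
private noncomputable def tG (Gi G : Matrix n n ℂ) : Matrix n n ℂ →ₗ[ℂ] Matrix n n ℂ where
  toFun x := Gi * xᵀ * G
  map_add' x y := by rw [Matrix.transpose_add, mul_add, add_mul]
  map_smul' c x := by
    rw [Matrix.transpose_smul, mul_smul_comm, smul_mul_assoc]
    rfl

private theorem tG_apply (Gi G x : Matrix n n ℂ) : tG Gi G x = Gi * xᵀ * G := rfl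

/-- the Lie algebra in the new basis -/
private noncomputable def LBB (L : Submodule ℂ (Matrix n n ℂ)) (B Bi : Matrix n n ℂ) :
    Submodule ℂ (Matrix n n ℂ) where
  carrier := {x | cj Bi B x ∈ L}
  add_mem' := by
    intro x y hx hy
    change cj Bi B (x + y) ∈ L
    rw [cj_add]
    exact L.add_mem hx hy
  zero_mem' := by
    change cj Bi B 0 ∈ L
    rw [cj_zero]
    exact L.zero_mem
  smul_mem' := by
    intro c x hx
    change cj Bi B (c • x) ∈ L
    rw [cj_smul]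
    exact L.smul_mem c hx

private theorem mem_LBB {L : Submodule ℂ (Matrix n n ℂ)} {B Bi x : Matrix n n ℂ} :
    x ∈ LBB L B Bi ↔ cj Bi B x ∈ L := Iff.rfl

/-- a matrix that commutes with an irreducible set of matrices is a scalar -/
private theorem schur_of [Nonempty n] (L : Submodule ℂ (Matrix n n ℂ))
    (hirr : ∀ W : Submodule ℂ (n → ℂ), (∀ X ∈ L, ∀ w ∈ W, X *ᵥ w ∈ W) → W = ⊥ ∨ W = ⊤)
    {T : Matrix n n ℂ} (hT : ∀ X ∈ L, T * X = X * T) : ∃ c : ℂ, T = c • (1 : Matrix n n ℂ) := by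
  obtain ⟨c, hc⟩ := Module.End.exists_eigenvalue (Matrix.toLin' T)
  refine ⟨c, ?_⟩
  rcases hirr (Module.End.eigenspace (Matrix.toLin' T) c) (by
    intro X hX w hw
    rw [Module.End.mem_eigenspace_iff, Matrix.toLin'_apply] at hw ⊢
    rw [Matrix.mulVec_mulVec, hT X hX, ← Matrix.mulVec_mulVec, hw, Matrix.mulVec_smul]) with h | h
  · exact absurd h hc
  · apply Dat.mat_ext
    intro u
    have hu : u ∈ Module.End.eigenspace (Matrix.toLin' T) c := by
      rw [h]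
      exact Submodule.mem_top
    rw [Module.End.mem_eigenspace_iff, Matrix.toLin'_apply] at hu
    rw [hu, Matrix.smul_mulVec, Matrix.one_mulVec]

/-- the spectral decomposition of a Hermitian matrix is Hermitian -/
private theorem spec_of {h : Matrix n n ℂ} {E : ℝ → Matrix n n ℂ} {Λ : Finset ℝ} (hE : SD h E Λ) (hh : hᴴ = h) :
    Spec h E Λ := by
  have hF : SD h (fun μ => (E μ)ᴴ) Λ := by
    refine ⟨fun μ ν => ?_, ?_, ?_⟩
    · rw [← Matrix.conjTranspose_mul, hE.mul]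
      by_cases hμ : μ = ν
      · rw [if_pos hμ, if_pos hμ.symm, hμ]
      · rw [if_neg hμ, if_neg (Ne.symm hμ), Matrix.conjTranspose_zero]
    · rw [← Matrix.conjTranspose_sum, hE.sum, Matrix.conjTranspose_one]
    · conv_lhs => rw [← hh, hE.eq]
      rw [Matrix.conjTranspose_sum]
      refine Finset.sum_congr rfl fun μ _ => ?_
      rw [Matrix.conjTranspose_smul]
      congr 1
      exact Complex.conj_ofReal μ
  have hz : ∀ μ ν : ℝ, μ ≠ ν → E μ * (E ν)ᴴ = 0 := by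
    intro μ ν hμ
    have e1 : E μ * (h * (E ν)ᴴ) = (ν : ℂ) • (E μ * (E ν)ᴴ) := by
      rw [hF.l_mul ν, mul_smul_comm]
    rw [← mul_assoc, hE.mul_l, smul_mul_assoc] at e1
    have e2 : ((μ : ℂ) - ν) • (E μ * (E ν)ᴴ) = 0 := by rw [sub_smul, e1, sub_self]
    rcases smul_eq_zero.1 e2 with e3 | e3
    · exact absurd (by exact_mod_cast sub_eq_zero.1 e3) hμ
    · exact e3
  refine ⟨fun μ => ?_, hE.mul, fun μ hμ => hE.supp hμ, hE.sum, hE.eq⟩
  by_cases hμ : μ ∈ Λ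
  · have e1 : E μ = E μ * (E μ)ᴴ := by
      conv_lhs => rw [← mul_one (E μ), ← hF.sum, Finset.mul_sum]
      rw [Finset.sum_eq_single_of_mem μ hμ]
      intro ν _ hν
      exact hz μ ν (Ne.symm hν)
    have e2 : (E μ)ᴴ = E μ * (E μ)ᴴ := by
      conv_lhs => rw [← one_mul (E μ)ᴴ, ← hE.sum, Finset.sum_mul]
      rw [Finset.sum_eq_single_of_mem μ hμ]
      intro ν _ hν
      exact hz ν μ hν
    rw [e2]
    exact e1.symm
  · rw [hE.supp hμ, Matrix.conjTranspose_zero]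

/-- conjugation of a spectral decomposition -/
private theorem sd_cj {h : Matrix n n ℂ} {E : ℝ → Matrix n n ℂ} {Λ : Finset ℝ} (hE : SD h E Λ)
    {B Bi : Matrix n n ℂ} (h1 : B * Bi = 1) (h2 : Bi * B = 1) :
    SD (cj B Bi h) (fun μ => cj B Bi (E μ)) Λ := by
  refine ⟨fun μ ν => ?_, ?_, ?_⟩
  · rw [cj_mul h2, hE.mul]
    by_cases hμ : μ = ν
    · rw [if_pos hμ, if_pos hμ]
    · rw [if_neg hμ, if_neg hμ, cj_zero]
  · rw [← cj_sum, hE.sum, cj_one h1]
  · conv_lhs => rw [hE.eq, cj_sum]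
    exact Finset.sum_congr rfl fun μ _ => cj_smul _ _ _ _

/-- skew matrices in the new basis -/
private theorem tG_cj {Q' Qi B Bi : Matrix n n ℂ} (hQ2 : Qi * Q' = 1) (h2 : Bi * B = 1) {X : Matrix n n ℂ}
    (hX : Xᵀ * Q' + Q' * X = 0) : tG (B * Qi * Bᵀ) (Biᵀ * Q' * Bi) (cj B Bi X) = -cj B Bi X := by
  have e1 : Bᵀ * Biᵀ = 1 := by rw [← Matrix.transpose_mul, h2, Matrix.transpose_one]
  have e2 : Xᵀ * Q' = -(Q' * X) := eq_neg_of_add_eq_zero_left hX
  rw [tG_apply]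
  unfold cj
  rw [Matrix.transpose_mul, Matrix.transpose_mul]
  calc B * Qi * Bᵀ * (Biᵀ * (Xᵀ * Bᵀ)) * (Biᵀ * Q' * Bi)
      = B * Qi * (Bᵀ * Biᵀ) * Xᵀ * (Bᵀ * Biᵀ) * Q' * Bi := by simp only [mul_assoc]
    _ = B * Qi * (Xᵀ * Q') * Bi := by rw [e1, mul_one, mul_one]; simp only [mul_assoc]
    _ = -(B * (Qi * Q') * X * Bi) := by rw [e2, mul_neg, neg_mul]; simp only [mul_assoc]
    _ = -(B * X * Bi) := by rw [hQ2, mul_one]

/-- the data of the theorem on a dominating middle eigenvalue -/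
private theorem dat_irr [Nonempty n] {Q' Qi : Matrix n n ℂ} (hQs : Q'ᵀ = Q') (hQ1 : Q' * Qi = 1) (hQ2 : Qi * Q' = 1)
    {L : Submodule ℂ (Matrix n n ℂ)} (hbr : ∀ X ∈ L, ∀ Y ∈ L, X * Y - Y * X ∈ L)
    (hirr : ∀ W : Submodule ℂ (n → ℂ), (∀ X ∈ L, ∀ w ∈ W, X *ᵥ w ∈ W) → W = ⊥ ∨ W = ⊤)
    (hsk : ∀ X ∈ L, Xᵀ * Q' + Q' * X = 0) {h : Matrix n n ℂ} (hh : h ∈ L) {E : ℝ → Matrix n n ℂ} {Λ : Finset ℝ}
    (hE : SD h E Λ) {B Bi : Matrix n n ℂ} (h1 : B * Bi = 1) (h2 : Bi * B = 1) (h3 : (cj B Bi h)ᴴ = cj B Bi h)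
    (h4 : ∀ X ∈ L, cj Bi B (cj B Bi X)ᴴ ∈ L) :
    Dat (tG (B * Qi * Bᵀ) (Biᵀ * Q' * Bi)) (LBB L B Bi) (cj B Bi h) (fun μ => cj B Bi (E μ)) Λ := by
  have b1 : Bᵀ * Biᵀ = 1 := by rw [← Matrix.transpose_mul, h2, Matrix.transpose_one]
  have b2 : Biᵀ * Bᵀ = 1 := by rw [← Matrix.transpose_mul, h1, Matrix.transpose_one]
  have hGiG : B * Qi * Bᵀ * (Biᵀ * Q' * Bi) = 1 := by
    calc B * Qi * Bᵀ * (Biᵀ * Q' * Bi) = B * Qi * (Bᵀ * Biᵀ) * Q' * Bi := by simp only [mul_assoc]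
      _ = B * (Qi * Q') * Bi := by rw [b1, mul_one]; simp only [mul_assoc]
      _ = 1 := by rw [hQ2, mul_one, h1]
  have hGGi : Biᵀ * Q' * Bi * (B * Qi * Bᵀ) = 1 := by
    calc Biᵀ * Q' * Bi * (B * Qi * Bᵀ) = Biᵀ * Q' * (Bi * B) * Qi * Bᵀ := by simp only [mul_assoc]
      _ = Biᵀ * (Q' * Qi) * Bᵀ := by rw [h2, mul_one]; simp only [mul_assoc]
      _ = 1 := by rw [hQ1, mul_one, b2]
  have hGt : (Biᵀ * Q' * Bi)ᵀ = Biᵀ * Q' * Bi := by
    rw [Matrix.transpose_mul, Matrix.transpose_mul, Matrix.transpose_transpose, hQs, mul_assoc]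
  have hsk' : ∀ x ∈ LBB L B Bi, tG (B * Qi * Bᵀ) (Biᵀ * Q' * Bi) x = -x := by
    intro x hx
    have e1 := tG_cj (B := B) hQ2 h2 (hsk _ (mem_LBB.1 hx))
    rwa [cj_cj h1] at e1
  have hst' : ∀ x ∈ LBB L B Bi, xᴴ ∈ LBB L B Bi := by
    intro x hx
    have e1 := h4 _ (mem_LBB.1 hx)
    rwa [cj_cj h1] at e1
  have hirr' : ∀ T : Matrix n n ℂ, (∀ x ∈ LBB L B Bi, T * x = x * T) → ∃ c : ℂ, T = c • (1 : Matrix n n ℂ) := by
    intro T hT
    obtain ⟨c, hc⟩ := schur_of L hirr (T := cj Bi B T) (by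
      intro X hX
      have e1 := hT (cj B Bi X) (by rw [mem_LBB, cj_cj h2]; exact hX)
      have e2 := congrArg (cj Bi B) e1
      rwa [← cj_mul h1, ← cj_mul h1, cj_cj h2] at e2)
    refine ⟨c, ?_⟩
    have e3 := congrArg (cj B Bi) hc
    rwa [cj_cj h1, cj_smul, cj_one h1] at e3
  generalize B * Qi * Bᵀ = Gi at hGiG hGGi hsk' ⊢
  generalize Biᵀ * Q' * Bi = G at hGiG hGGi hGt hsk' ⊢
  have hGit : Giᵀ = Gi := by
    have e1 : Giᵀ * G = 1 := by
      have e2 := congrArg Matrix.transpose hGGi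
      rwa [Matrix.transpose_mul, hGt, Matrix.transpose_one] at e2
    calc Giᵀ = Giᵀ * (G * Gi) := by rw [hGGi, mul_one]
      _ = Gi := by rw [← mul_assoc, e1, one_mul]
  have hsk2 : ∀ x ∈ LBB L B Bi, xᵀ * G = -(G * x) := by
    intro x hx
    calc xᵀ * G = G * (Gi * xᵀ * G) := by simp only [← mul_assoc]; rw [hGGi, one_mul]
      _ = -(G * x) := by rw [← tG_apply, hsk' x hx, mul_neg]
  obtain ⟨c, hc⟩ := hirr' (Gᴴ * G) (by
    intro x hx
    have e1 : (xᴴ)ᵀ * G = -(G * xᴴ) := hsk2 _ (hst' x hx)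
    have e2 : Gᴴ * xᵀ = -(x * Gᴴ) := by
      have e3 := congrArg Matrix.conjTranspose e1
      rw [Matrix.conjTranspose_mul, Matrix.conjTranspose_neg, Matrix.conjTranspose_mul,
        Matrix.conjTranspose_conjTranspose] at e3
      have e4 : ((xᴴ)ᵀ)ᴴ = xᵀ := by
        have : (xᴴ)ᵀ = (xᵀ)ᴴ := rfl
        rw [this, Matrix.conjTranspose_conjTranspose]
      rwa [e4] at e3
    calc Gᴴ * G * x = -(Gᴴ * xᵀ * G) := by rw [mul_assoc, mul_assoc, hsk2 x hx, mul_neg, neg_neg]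
      _ = x * (Gᴴ * G) := by rw [e2, neg_mul, neg_neg, mul_assoc])
  have hcr : starRingEnd ℂ c = c := by
    have e1 : (Gᴴ * G)ᴴ = Gᴴ * G := by rw [Matrix.conjTranspose_mul, Matrix.conjTranspose_conjTranspose]
    rw [hc, Matrix.conjTranspose_smul, Matrix.conjTranspose_one] at e1
    obtain ⟨i⟩ := (inferInstance : Nonempty n)
    have e2 := congrFun (congrFun e1 i) i
    simpa using e2
  have hG1 : Gᴴ = c • Gi := by
    calc Gᴴ = Gᴴ * G * Gi := by rw [mul_assoc, hGGi, mul_one]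
      _ = c • Gi := by rw [hc, smul_mul_assoc, one_mul]
  have hG2 : G = c • Giᴴ := by
    have e1 := congrArg Matrix.conjTranspose hG1
    rw [Matrix.conjTranspose_conjTranspose, Matrix.conjTranspose_smul] at e1
    rw [e1]
    congr 1
  refine ⟨⟨?_, ?_, ?_, ?_⟩, spec_of (sd_cj hE h1 h2) h3, hsk', ?_, hst', hirr', ?_⟩
  · intro x y
    rw [tG_apply, tG_apply, tG_apply, Matrix.transpose_mul]
    calc Gi * (yᵀ * xᵀ) * G = Gi * yᵀ * 1 * xᵀ * G := by rw [mul_one, ← mul_assoc Gi]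
      _ = Gi * yᵀ * G * (Gi * xᵀ * G) := by rw [← hGGi]; simp only [mul_assoc]
  · intro x
    rw [tG_apply, tG_apply, Matrix.transpose_mul, Matrix.transpose_mul, Matrix.transpose_transpose, hGt, hGit]
    calc Gi * (G * (x * Gi)) * G = Gi * G * x * (Gi * G) := by simp only [mul_assoc]
      _ = x := by rw [hGiG, one_mul, mul_one]
  · intro x
    rw [tG_apply, tG_apply, Matrix.conjTranspose_mul, Matrix.conjTranspose_mul]
    have e1 : (xᴴ)ᵀ = (xᵀ)ᴴ := rfl
    rw [e1]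
    calc Gi * (xᵀ)ᴴ * G = c • (Gi * (xᵀ)ᴴ * Giᴴ) := by
          conv_lhs => rw [hG2]
          rw [mul_smul_comm]
      _ = Gᴴ * ((xᵀ)ᴴ * Giᴴ) := by rw [hG1, smul_mul_assoc, mul_assoc]
  · intro x
    rw [tG_apply, mul_assoc, Matrix.trace_mul_comm, mul_assoc, hGGi, mul_one, Matrix.trace_transpose]
  · intro x hx y hy
    rw [mem_LBB, cj_sub, ← cj_mul h1, ← cj_mul h1]
    exact hbr _ (mem_LBB.1 hx) _ (mem_LBB.1 hy)
  · rw [mem_LBB, cj_cj h2]
    exact hh

/-- **Simple Lie algebras with a dominating middle eigenvalue.** -/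
theorem full_domM_smp (Q' Qi : Matrix n n ℂ) (hQs : Q'ᵀ = Q') (hQ1 : Q' * Qi = 1) (hQ2 : Qi * Q' = 1)
    (L : Submodule ℂ (Matrix n n ℂ)) (hbr : ∀ X ∈ L, ∀ Y ∈ L, X * Y - Y * X ∈ L)
    (hirr : ∀ W : Submodule ℂ (n → ℂ), (∀ X ∈ L, ∀ w ∈ W, X *ᵥ w ∈ W) → W = ⊥ ∨ W = ⊤)
    (hsk : ∀ X ∈ L, Xᵀ * Q' + Q' * X = 0) {h : Matrix n n ℂ} (hh : h ∈ L) {E : ℝ → Matrix n n ℂ} {Λ : Finset ℝ}
    (hE : SD h E Λ) (hs : 2 ≤ ∑ μ ∈ Λ.filter (fun μ => 0 < μ), (E μ).rank)
    (hb : (∑ μ ∈ Λ.filter (fun μ => 0 < μ), (E μ).rank) ^ 2 < (E 0).rank)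
    (hsmp : Smp L) {X : Matrix n n ℂ} (hX : Xᵀ * Q' + Q' * X = 0) : X ∈ L := by
  classical
  have hne : Nonempty n := by
    by_contra h0
    rw [not_nonempty_iff] at h0
    have e1 : ∑ μ ∈ Λ.filter (fun μ => 0 < μ), (E μ).rank = 0 := by
      refine Finset.sum_eq_zero fun μ _ => ?_
      rw [Subsingleton.elim (E μ) 0, Matrix.rank_zero]
    omega
  have htr0 : ∀ Y ∈ L, Y.trace = 0 := by
    intro Y hY
    have e1 : Yᵀ * Q' = -(Q' * Y) := eq_neg_of_add_eq_zero_left (hsk Y hY)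
    have e2 : Y.trace = -Y.trace := by
      calc Y.trace = (Yᵀ * (Q' * Qi)).trace := by rw [hQ1, mul_one, Matrix.trace_transpose]
        _ = -(Q' * Y * Qi).trace := by rw [← mul_assoc, e1, neg_mul, Matrix.trace_neg]
        _ = -Y.trace := by rw [mul_assoc, Matrix.trace_mul_comm, mul_assoc, hQ2, mul_one]
    exact self_eq_neg.1 e2
  have hh0 : h ≠ 0 := by
    rintro rfl
    have e1 : ∑ μ ∈ Λ.filter (fun μ => 0 < μ), (E μ).rank = 0 := by
      refine Finset.sum_eq_zero fun μ hμ => ?_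
      have h1 := hE.l_mul μ
      rw [zero_mul] at h1
      have h2 : (μ : ℂ) ≠ 0 := by
        have := (Finset.mem_filter.1 hμ).2
        exact_mod_cast this.ne'
      rw [(smul_eq_zero.1 h1.symm).resolve_left h2, Matrix.rank_zero]
    omega
  obtain ⟨B, Bi, h1, h2, h3, h4⟩ := exists_herm L hbr hirr htr0 hh hE
  have D := dat_irr hQs hQ1 hQ2 hbr hirr hsk hh hE h1 h2 h3 h4
  have hEE : ∀ μ, E μ * E μ = E μ := fun μ => by rw [hE.mul, if_pos rfl]
  have r1 : ∀ μ, (cj B Bi (E μ)).rank = (E μ).rank := fun μ => rank_cj h1 h2 (hEE μ)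
  have rP : (Pp (fun μ => cj B Bi (E μ)) Λ).rank = ∑ μ ∈ Λ.filter (fun μ => 0 < μ), (E μ).rank := by
    rw [D.rank_Pp]
    exact Finset.sum_congr rfl fun μ _ => r1 μ
  have hs1 : 2 ≤ (Pp (fun μ => cj B Bi (E μ)) Λ).rank := by
    rw [rP]
    exact hs
  have hb1 : (Pp (fun μ => cj B Bi (E μ)) Λ).rank ^ 2 < (cj B Bi (E 0)).rank := by
    rw [rP, r1]
    exact hb
  have b1 : Bᵀ * Biᵀ = 1 := by rw [← Matrix.transpose_mul, h2, Matrix.transpose_one]
  have hTP : TP (tG (B * Qi * Bᵀ) (Biᵀ * Q' * Bi)) (LBB L B Bi) (fun μ => cj B Bi (E μ)) := by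
    refine D.units3 (G := Biᵀ * Q' * Bi) (Gi := B * Qi * Bᵀ) ?_ ?_ (fun x => rfl) (fun hK => D.bound3 hK hs1) hs1 hb1
    · calc B * Qi * Bᵀ * (Biᵀ * Q' * Bi) = B * Qi * (Bᵀ * Biᵀ) * Q' * Bi := by simp only [mul_assoc]
        _ = B * (Qi * Q') * Bi := by rw [b1, mul_one]; simp only [mul_assoc]
        _ = 1 := by rw [hQ2, mul_one, h1]
    · rw [Matrix.transpose_mul, Matrix.transpose_mul, Matrix.transpose_transpose, hQs, mul_assoc]
  have G' : GH.Gr (LBB L B Bi) (cj B Bi h) (fun μ => cj B Bi (E μ)) Λ := ⟨D.spec, D.br, D.st, D.mem⟩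
  have hmem := D.main_core hs1 hb1 hTP (by
    intro T hT
    refine G'.nr98 D.irr ?_ (T := T) ⟨hT _ D.mem _ ⟨D.spec.mul, D.spec.sum, D.spec.eq⟩ fun μ => rfl, ?_⟩
    · intro K hKL hK hhK _
      let K0 : Submodule ℂ (Matrix n n ℂ) :=
        { carrier := {x | cj B Bi x ∈ K}
          add_mem' := by
            intro x y hx hy
            change cj B Bi (x + y) ∈ K
            rw [cj_add]
            exact K.add_mem hx hy
          zero_mem' := by
            change cj B Bi 0 ∈ K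
            rw [cj_zero]
            exact K.zero_mem
          smul_mem' := by
            intro c x hx
            change cj B Bi (c • x) ∈ K
            rw [cj_smul]
            exact K.smul_mem c hx }
      have hK0 : K0 ≤ L := by
        intro x hx
        have e1 := mem_LBB.1 (hKL hx)
        rwa [cj_cj h2] at e1
      rcases hsmp K0 hK0 (by
        intro Y hY x hx
        change cj B Bi (Y * x - x * Y) ∈ K
        rw [cj_sub, ← cj_mul h2, ← cj_mul h2]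
        exact hK _ (by rw [mem_LBB, cj_cj h2]; exact hY) _ hx) with h5 | h5
      · exfalso
        have h6 : h ∈ K0 := hhK
        rw [h5, Submodule.mem_bot] at h6
        exact hh0 h6
      · intro x hx
        have h6 : cj Bi B x ∈ K0 := by
          rw [h5]
          exact mem_LBB.1 hx
        change cj B Bi (cj Bi B x) ∈ K at h6
        rwa [cj_cj h1] at h6
    · intro ν hν x hx
      obtain ⟨F, hF1, hF2⟩ := G'.conj98 hν hx
      have e1 := hT _ ((LBB L B Bi).add_mem D.mem hx.1) F hF1 hF2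
      have e2 := hT _ D.mem _ ⟨D.spec.mul, D.spec.sum, D.spec.eq⟩ fun μ => rfl
      rw [mul_add, add_mul, e2] at e1
      exact add_left_cancel e1) (tG_cj (B := B) hQ2 h2 hX)
  rw [mem_LBB, cj_cj h2] at hmem
  exact hmem

end MH
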